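import Pool.Agent.Lib.MP_b5021c_nt.IfaceO4V
import Pool.Agent.Lib.MP_b5021c_nt.OF.H29.Of2
import Pool.Agent.Lib.MP_b5021c_nt.OF.H29.Ndwd
import Pool.Agent.Lib.MP_b5021c_nt.O1.H12.Cnt

/-!
# MP_b5021c_nt, all `θ`, K ODD, row O4_A2: a drop `g ≥ 2` at the A-load

A small factor at the A-load: its mass is one (ndwd) and the face of four exponents is impossible;
so there is none, `g = 2`, and the element of (AM_DTI) has the class `V(n)` and the rank `2 j - 1`.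
-/

namespace Pool.Agent.B5.O4H39

open scoped LaurentPolynomial
open Polynomial
open Pool.Agent.B5.KE
open Pool.Agent.B5.O1.H12
open Pool.Agent.B5.Nr.Sch (Loc)

section

variable {P L : Type} [Fintype P] [DecidableEq P] [AddCommGroup L] [Module.Free ℤ L]
  [Module.Finite ℤ L] {phi : L →+ (P → ℤ)} {D : AO ℤ L}

/-- THE MASS of a small factor, with a denominator, at a load of class `V`. -/
theorem mass (h1 : SmallS) (h2 : QstS) (hQp : Qp3S) (hKe : KerEvS) (hMm : MmulS) (hMV : MVS)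
    (hE1 : E1S) (hDb : Db3S) (hNn : Nn3S) (hEv : EvRS) (hZ : ZfinS) {S : L} {i0 : P}
    {eta : (RO ℤ)ˣ} {h : co phi i0 S = 1} {c : RO ℤ} {n : ℕ}
    {G : Fin n → AO ℤ (Ker (co phi i0))} (fd : FD phi D S i0 eta h c n G) {N : ℝ}
    (hVV : ClassV N (D.coeff 0 + (eta : RO ℤ) * D.coeff S)) (m0 : ℤ) (v : ℤ[X])
    (hv : D.coeff 0 + (eta : RO ℤ) * D.coeff S = LaurentPolynomial.T m0 * toLaurent v)
    (hd : ∀ z0 : ℂ, ‖z0‖ = 1 → ¬ (X - C z0) ^ 2 ∣ v.map Coef.emb) {l : Fin n}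
    (hl : l ∈ snp phi S i0 G) :
    ∃ (b : Ker (co phi i0)) (j : P) (e : (RO ℤ)ˣ) (hj : co (phK phi (co phi i0)) j b = 1)
      (q F : AO ℤ (Ker (co (phK phi (co phi i0)) j))) (m : ℕ),
      QC phi D S i0 eta h c n G l b j e hj q ∧ 1 ≤ m ∧ (m : ℝ) ≤ M c ∧
      cst (LaurentPolynomial.C (m : ℤ)) * q = cst (c * (G l).coeff 0) * F ∧ NnT F ∧
      F.coeff 0 ≠ 0 := by
  classical
  have hl' : ¬ 1 < M ((G l).coeff 0) ∧ ¬ Pure phi S i0 (G l) := by
    have h3 := hl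
    unfold snp at h3
    exact (Finset.mem_filter.mp h3).2
  obtain ⟨_, _, h3⟩ := h1 ℤ P L phi D S i0 eta h c n G fd l hl'.1
  obtain ⟨b, j, e, hsp⟩ := h3 hl'.2
  have hj : co (phK phi (co phi i0)) j b = 1 := hsp.bj
  obtain ⟨q, hq0, hxe, hrq, _, _⟩ := h2 ℤ P L phi D S i0 eta h c n G fd l b j e hsp hj
  have hqc : QC phi D S i0 eta h c n G l b j e hj q := ⟨fd, hsp, hq0, hxe, hrq⟩
  have hvp : D.coeff 0 + (eta : RO ℤ) * D.coeff S =
      (c * (G l).coeff 0) * ∏ i ∈ Finset.univ.erase l, (G i).coeff 0 := by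
    rw [fd.v00, mul_assoc, Finset.mul_prod_erase Finset.univ
        (fun i => (G i).coeff 0) (Finset.mem_univ l)]
  obtain ⟨mu, -, huu, -, -⟩ := (hE1 ℤ).1 N (c * (G l).coeff 0) _ (by
    rw [← hvp]; exact hVV)
  obtain ⟨m, F, hm1, hmM, hF, hFn⟩ := dvK hNn hKe hMm hMV hE1 hDb hEv hZ q
    (c * (G l).coeff 0) (∏ i ∈ Finset.univ.erase l, (G i).coeff 0) hq0
    (mul_ne_zero fd.c0 hsp.u0.ne_zero) mu huu hrq
    (hQp ℤ P L phi D S i0 eta h c n G l b j e hj q hqc) m0 v (by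
      rw [← hv, hvp]) hd
  refine ⟨b, j, e, hj, q, F, m, hqc, hm1, ?_, hF, hFn, ?_⟩
  · rw [(hMm ℤ).1 c _ fd.c0 hsp.u0.ne_zero, (hMm ℤ).2.2 _ hsp.u0, mul_one] at hmM
    exact hmM
  · apply Pool.Agent.B5.H76.t_ne hZ hNn F hFn
    intro h0
    rw [h0, mul_zero] at hF
    rcases mul_eq_zero.mp hF with h4 | h4
    · have h5 := congrArg (fun x : AO ℤ _ => x.coeff 0) h4
      simp only [cst, AddMonoidAlgebra.coeff_single] at h5
      rw [Finsupp.single_eq_same] at h5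
      have h6 : (LaurentPolynomial.C (m : ℤ) : RO ℤ) = 0 := h5
      have h7 := congrArg (fun x : RO ℤ => x.coeff 0) h6
      simp only [← LaurentPolynomial.single_eq_C, AddMonoidAlgebra.coeff_single] at h7
      rw [Finsupp.single_eq_same] at h7
      have h8 : (m : ℤ) = 0 := h7
      omega
    · exact hq0 h4

omit [Module.Free ℤ L] [Module.Finite ℤ L] in
/-- No double zero of `q - f` on the circle. -/
theorem no_dbl (hNd : Nd3S) {S : L} {q f : ℤ[X]} {e : (RO ℤ)ˣ} {a : ℝ} (hR : RN D S q f e a)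
    (hu : f.coeff 0 = 1) (hqf0 : q - f ≠ 0) :
    ∀ z0 : ℂ, ‖z0‖ = 1 → ¬ (X - C z0) ^ 2 ∣ (q - f).map (Coef.emb : ℤ →+* ℂ) := by
  intro z0 hz0
  refine hNd (q.map (Coef.emb : ℤ →+* ℂ)) ((q - f).map (Coef.emb : ℤ →+* ℂ)) z0 ?_ ?_ ?_ ?_ ?_ hz0
  · unfold Pool.Agent.MP_b5021c_nt.nz
    rw [roots_loc hR.loc]
    rfl
  · intro z hz
    rw [ev_map]
    exact q_ne hR.loc z hz
  · intro z hz
    rw [ev_map, ev_map, map_sub]
    have h3 := hR.loc.le z hz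
    have h4 : (aeval z f * (starRingEnd ℂ) (aeval z q)).re ≤ ‖aeval z q‖ ^ 2 := by
      have h5 := Complex.re_le_norm (aeval z f * (starRingEnd ℂ) (aeval z q))
      rw [norm_mul, RCLike.norm_conj] at h5
      nlinarith [norm_nonneg (aeval z q)]
    rw [sub_mul, Complex.sub_re, Complex.mul_conj, Complex.ofReal_re, Complex.normSq_eq_norm_sq]
    linarith
  · exact (Polynomial.map_ne_zero_iff emb_inj).mpr hqf0
  · refine ⟨0, by simp, ?_⟩
    rw [ev_map]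
    have h3 : aeval (0 : ℂ) (q - f) = (((q - f).coeff 0 : ℤ) : ℂ) := by
      rw [← coeff_zero_eq_aeval_zero']
      simp
    rw [h3, coeff_sub, hR.loc.q0, hu]
    norm_num

/-- The lowest coefficients: `m A = t E`. -/
theorem low_dvd {A E : ℤ[X]} {m : ℕ} {t : RO ℤ} (hm : 1 ≤ m) (hA : A.coeff 0 = 1)
    (hE : E.coeff 0 ≠ 0)
    (h : LaurentPolynomial.C (m : ℤ) * (toLaurent A : RO ℤ) = t * toLaurent E) :
    E.coeff 0 ≤ m := by
  have h1 : (toLaurent (C (m : ℤ) * A) : RO ℤ) = t * toLaurent E := by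
    rw [map_mul, toLaurent_C]
    exact h
  have ht : t ≠ 0 := by
    rintro rfl
    rw [zero_mul] at h1
    have h2 : C (m : ℤ) * A = 0 := Polynomial.toLaurent_injective (by rw [h1, map_zero])
    have h3 := congrArg (fun p : ℤ[X] => p.coeff 0) h2
    simp only [mul_coeff_zero, coeff_C_zero, hA, mul_one, coeff_zero] at h3
    omega
  obtain ⟨n, p, hp, htp⟩ := H67.nf_exists ht
  have h2 : (LaurentPolynomial.T 0 : RO ℤ) * toLaurent (C (m : ℤ) * A) =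
      LaurentPolynomial.T n * toLaurent (p * E) := by
    rw [LaurentPolynomial.T_zero, one_mul, h1, htp, map_mul, mul_assoc]
  obtain ⟨-, h4⟩ := H56.nf_unique 0 n _ (p * E) (by
    rw [mul_coeff_zero, coeff_C_zero, hA, mul_one]
    exact_mod_cast (by omega : m ≠ 0)) (by
    rw [mul_coeff_zero]
    exact mul_ne_zero hp hE) h2
  have h5 := congrArg (fun x : ℤ[X] => x.coeff 0) h4
  simp only [mul_coeff_zero, coeff_C_zero, hA, mul_one] at h5
  exact Int.le_of_dvd (by exact_mod_cast (by omega : 0 < m)) (Dvd.intro_left _ h5.symm)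

/-- NO SMALL FACTOR at the A-load if the drop is at least two. -/
theorem no_small (h1 : SmallS) (h2 : QstS) (hQp : Qp3S) (hKe : KerEvS) (hMm : MmulS) (hMV : MVS)
    (hE1 : E1S) (hDb : Db3S) (hNn : Nn3S) (hEv : EvRS) (hZ : ZfinS) (hNd : Nd3S) (hClp : ClpS)
    (hF1 : F1S) (hMc : McoS) (hRs : RaySpanS) (hE2 : E2S) (hI1 : Inj1S) (hV : VcoS) (hI2 : I2S)
    (hF3 : F3S) (hF4c : Fc4S) (hNa : O4naS) {q f E : ℤ[X]} {a p : ℝ} {j : ℕ}
    {eta : L → (RO ℤ)ˣ} {g : ℕ} {C0 : Set L} {S0 S1 : L} {e0 e1 : (RO ℤ)ˣ} {i0 : P}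
    {h : co phi i0 S0 = 1} {c : RO ℤ} {n : ℕ} {G : Fin n → AO ℤ (Ker (co phi i0))}
    (K : K4 phi D q f E a p j eta g C0 S0 S1 e0 e1) (hg : 2 ≤ g)
    (fd : FD phi D S0 i0 (-e0) h c n G) : ∀ i, 1 < M ((G i).coeff 0) := by
  classical
  have fp := K.kc.ko.min.fp
  have hD := fp.dd
  have hu := K.o.f0
  have hrk := K.kc.ko.rk
  have hj := K.kc.ko.j2
  have hE0 : E.coeff 0 ≠ 0 := by
    have := K.n2
    omega
  have hR := K.r0
  have hqf : q - f = X * (-E) := by rw [mul_neg, ← K.eq]; ring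
  have hqf0 : q - f ≠ 0 := by
    intro h0
    rw [h0] at hqf
    have h3 := congrArg (fun p : ℤ[X] => p.coeff 1) hqf
    simp only [coeff_zero, coeff_X_mul, coeff_neg] at h3
    omega
  obtain ⟨hVV, -⟩ := classV_A hR hu
  have hv0 := V0_A hR
  have hnE : f.coeff 1 - q.coeff 1 = E.coeff 0 := by
    have h3 := congrArg (fun p : ℤ[X] => p.coeff 1) K.eq
    simp only [coeff_sub, coeff_X_mul] at h3
    exact h3
  rw [hnE] at hVV
  have hv : D.coeff 0 + ((-e0 : (RO ℤ)ˣ) : RO ℤ) * D.coeff S0 =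
      LaurentPolynomial.T 0 * toLaurent (q - f) := by
    rw [hv0, LaurentPolynomial.T_zero, one_mul]
  apply all_big hClp fp fd
  rw [Finset.eq_empty_iff_forall_notMem]
  intro l hl
  obtain ⟨b, jj, e, hjj, Q, F, m, hQ, hm1, hmM, hQF, hFn, hF0⟩ := mass h1 h2 hQp hKe hMm hMV hE1
    hDb hNn hEv hZ fd hVV 0 (q - f) hv (no_dbl hNd hR hu hqf0) hl
  -- the content is smaller than `n`
  obtain ⟨ib, hib⟩ := hNa P L phi D q f E a p j eta g C0 S0 S1 e0 e1 i0 h c n G K fd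
  have hcn : M c < (E.coeff 0 : ℝ) := by
    have h3 := ((hMV ℤ).1 _ _ hVV).2
    have hx : ∀ i, (G i).coeff 0 ≠ 0 := fun i => (fd.st i).1
    rw [fd.v00, (hMm ℤ).1 _ _ fd.c0 (Finset.prod_ne_zero_iff.mpr fun i _ => hx i)] at h3
    have h4 := H56.one_lt_prod hMm Finset.univ (fun i => (G i).coeff 0) hx ib
      (Finset.mem_univ ib) hib
    have h5 := (hMm ℤ).2.1 c
    rw [← h3]
    nlinarith
  have hmn : ¬ E.coeff 0 ≤ (m : ℤ) := by
    intro h3
    have h4 : ((E.coeff 0 : ℤ) : ℝ) ≤ (m : ℝ) := by exact_mod_cast h3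
    linarith
  -- the identities
  have hall : ∀ R, Ray D R → R ∉ US (-e0) S0 D → ∃ e2 : (RO ℤ)ˣ, Mut D S0 R (-e0) e2 := by
    intro R hRr hRU
    have h3 := K.kc.kc.mtl S0 K.m0 R hRr (by rw [K.t0]; exact hRU)
    rw [K.t0] at h3
    exact ⟨_, h3.2⟩
  have hVL : D.coeff 0 + ((-e0 : (RO ℤ)ˣ) : RO ℤ) * D.coeff S0 =
      -(LaurentPolynomial.T 1 * toLaurent E) := by
    rw [hv0, hqf, map_mul, map_neg, toLaurent_X]
    ring
  have hd0 : (LaurentPolynomial.C (m : ℤ) : RO ℤ) ≠ 0 := by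
    intro h6
    have h7 := congrArg (fun x : RO ℤ => x.coeff 0) h6
    simp only [← LaurentPolynomial.single_eq_C, AddMonoidAlgebra.coeff_single] at h7
    rw [Finsupp.single_eq_same] at h7
    have h8 : (m : ℤ) = 0 := h7
    omega
  rcases OFH29.Dnm.ndwd hF1 hMc hRs hE2 hI1 hV hI2 fp hQ hd0 hQF hF0 K.mt hall with
    h3 | h3 | h3 | ⟨-, h4, h5, h6, h7, h8, h9⟩
  · -- `V_0` divides `m D_S`
    obtain ⟨w, hw⟩ := h3
    apply hmn
    rw [hVL] at hw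
    refine low_dvd hm1 hu hE0 (t := -((e0 : RO ℤ) * w * LaurentPolynomial.T 1)) ?_
    rw [← hR.DS]
    linear_combination (e0 : RO ℤ) * hw
  · apply hmn
    rw [hVL, hR.D0] at h3
    refine low_dvd hm1 hR.loc.q0 hE0 (t := -(F.coeff 0 * LaurentPolynomial.T 1)) ?_
    rw [h3]
    ring
  · apply hmn
    rw [hVL, hR.D0] at h3
    refine low_dvd hm1 hR.loc.q0 hE0 (t := -((LaurentPolynomial.C (m : ℤ) + F.coeff 0) *
      LaurentPolynomial.T 1)) ?_
    rw [h3]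
    ring
  · obtain ⟨T1, -, T2, -, hm1', hm2', h10, h11⟩ := K.kc.kc.two hg S0 K.m0
    rw [K.t0] at hm1' hm2'
    refine OFH29.no_four hF4c hF3 hMc hD (by omega) hm1' hm2' h10 h11 h4 ?_ h5 h6 h7 h8 h9
      (V0_ne_A hR)
    intro h12
    have h13 := hQ.sp.bj
    rw [h12, map_zero] at h13
    exact zero_ne_one h13

end

/-- ROW O4_A2. -/
theorem o4a2 (h1 : SmallS) (h2 : QstS) (hQp : Qp3S) (hKe : KerEvS) (hMm : MmulS) (hMV : MVS)
    (hE1 : E1S) (hDb : Db3S) (hNn : Nn3S) (hEv : EvRS) (hZ : ZfinS) (hNd : Nd3S) (hClp : ClpS)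
    (hF1 : F1S) (hMc : McoS) (hRs : RaySpanS) (hE2 : E2S) (hI1 : Inj1S) (hV : VcoS) (hI2 : I2S)
    (hF3 : F3S) (hF4c : Fc4S) (hNa : O4naS) (hGlc : GlcS) (hFou : FouS) (hDti : DtiS)
    (hEvz : EvzS) : O4a2S := by
  intro P L _ _ _ _ _ phi D q f E a p j eta g C0 S0 S1 e0 e1 K hg
  have fp := K.kc.ko.min.fp
  have hD := fp.dd
  have hu := K.o.f0
  have hrk := K.kc.ko.rk
  have hj := K.kc.ko.j2
  have hn2 := K.n2
  have hR := K.r0
  have hA : ASet phi D eta g C0 := by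
    refine ⟨K.kc.kc.ray, ?_, ?_, K.kc.kc.us, K.kc.kc.mtl⟩
    · intro T hT
      obtain ⟨e, he, hRT⟩ := K.kc.rn T hT
      rw [he]
      exact V0_ne_A hRT
    · intro T hT i0 h c n G fd
      obtain ⟨e, he, hRT⟩ := K.kc.rn T hT
      obtain ⟨T', hT', hM⟩ := K.kc.kc.ex T hT
      obtain ⟨e', he', hRT'⟩ := K.kc.rn T' hT'
      have K' : K4 phi D q f E a p j eta g C0 T T' e e' :=
        ⟨K.kc, K.o, K.eq, K.n2, K.nj, K.ez, hT, hT', he, he', hRT, hRT', by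
          rw [← he, ← he']
          exact hM⟩
      rw [he] at fd
      exact no_small h1 h2 hQp hKe hMm hMV hE1 hDb hNn hEv hZ hNd hClp hF1 hMc hRs hE2 hI1 hV hI2
        hF3 hF4c hNa K' hg fd
  have hg2 : g = 2 := by
    have h3 := hGlc ℤ P L phi D eta g a⁻¹ C0 K.kc.ko.min (by omega) hA ⟨S0, K.m0⟩
    omega
  subst hg2
  obtain ⟨Z, dl, hF, hZ0, hZC⟩ := hFou ℤ P L phi D eta a⁻¹ C0 K.kc.ko.min (by omega) hA S0 K.m0
  have hco0 : (eta (Z 0) : RO ℤ) * D.coeff (Z 0) = -toLaurent f := by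
    rw [hZ0, K.t0, Units.val_neg, neg_mul, hR.DS]
  have h3 : D.coeff 0 + 2 * ((eta (Z 0) : RO ℤ) * D.coeff (Z 0)) ≠ 0 := by
    rw [hco0, hR.D0]
    have h4 : (toLaurent q + 2 * -toLaurent f : RO ℤ) = toLaurent (q - 2 * f) := by
      rw [map_sub, map_mul toLaurent 2 f, map_ofNat]
      ring
    rw [h4, toLaurent_ne_zero]
    intro h5
    have h6 : (q - 2 * f).coeff 0 = 0 := by rw [h5, coeff_zero]
    have h7 : (2 : ℤ[X]).coeff 0 = 2 := by
      rw [show (2 : ℤ[X]) = C 2 by simp, coeff_C_zero]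
    rw [coeff_sub, hR.loc.q0, mul_coeff_zero, h7, hu] at h6
    norm_num at h6
  obtain ⟨P', L', _, _, _, _, _, phi', D', hD', hr', hco⟩ := hDti ℤ P L phi D eta a⁻¹ Z dl fp
    (by omega) K.kc.ko.min.cls hF (fun i => hA.v0 (Z i) (hZC i)) h3
  rw [hco0, hR.D0, ← sub_eq_add_neg, ← map_sub] at hco
  obtain ⟨hVV, -⟩ := classV_A hR hu
  have hnE : f.coeff 1 - q.coeff 1 = E.coeff 0 := by
    have h3 := congrArg (fun p : ℤ[X] => p.coeff 1) K.eq
    simp only [coeff_sub, coeff_X_mul] at h3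
    exact h3
  rw [hnE, V0_A hR, ← hco] at hVV
  obtain ⟨nu, hnu⟩ : ∃ nu : ℕ, (nu : ℤ) = E.coeff 0 := ⟨(E.coeff 0).toNat, by omega⟩
  rw [← hnu] at hVV
  have h5 := hEvz nu (by omega) P' L' phi' D' hD' (by exact_mod_cast hVV)
  have h6 : Module.finrank ℤ L' ≤ 2 * nu := by exact_mod_cast h5
  have h7 := K.nj
  exact ⟨by omega, P', L', inferInstance, inferInstance, inferInstance, inferInstance,
    inferInstance, phi', D', hD', by omega, hco⟩

end Pool.Agent.B5.O4H39
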